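import Pool.Agent.Y219.SH.Marked

/-!
# Torsions of self-equivalences and simple-homotopy types for finite fundamental groups

Stronger form of the earlier result `FiniteSimpleTypes` of this repository (finitely many
simple-homotopy types of 2-complexes with finite fundamental group `G` and given Euler
characteristic): the torsions of self-equivalences form a subgroup of finite index of the
Whitehead group, uniformly, and the finiteness holds for all algebraic 2-complexes.

The complexes are the standard complexes of finite presentations (`H970SH.Pres`); homotopy
equivalences and their Whitehead torsion are expressed in the cellular chain complexes of the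
universal covers (`H970SH.CellularMap`, `H970SH.Contraction`, `Y219.SH.TorsionIs`). An algebraic
2-complex over `ℤ[G]` is a complex `ℤ[G]^Y → ℤ[G]^X → ℤ[G]` of finitely generated free based
modules (`H842.Cx`) which together with the augmentation is exact except at `ℤ[G]^Y`
(`H842.Ex`), and `H842.HasTor C L w` says that some chain homotopy equivalence `C → L` which is
the identity in degree zero has torsion `w ∈ Wh(G)`. The chain complex of the universal cover of
a 2-complex with fundamental group `G` is an algebraic 2-complex (`H842.pres_Ex'`).
-/

open Matrix

namespace Pool.Agent.Results.MP_b73599_gt.FiniteIndexTorsions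

open H970SH H842 Y219.SH

/-- The Euler characteristic `1 - |X| + |Y|` of the standard complex of a finite presentation
with generators `X` and relators indexed by `Y`. -/
def eulerChar (P : Pres) : ℤ := 1 - Fintype.card P.X + Fintype.card P.Y

/-- The 2-complexes with fundamental group `G` and Euler characteristic `n` form finitely many
simple-homotopy types. -/
def FinitelyManySimpleTypes (G : Type) [Group G] (n : ℤ) : Prop :=
  ∃ S : Set Pres, S.Finite ∧ (∀ L ∈ S, Nonempty (L.Pi1 ≃* G) ∧ eulerChar L = n) ∧
    ∀ K : Pres, Nonempty (K.Pi1 ≃* G) → eulerChar K = n →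
      ∃ L ∈ S, SimpleHomotopyEquivalent K L

/-- The set `T` is a subgroup of finite index of the abelian group `A`. -/
def IsFiniteIndexSubgroup (A : Type) [AddCommGroup A] (T : Set A) : Prop :=
  ∃ T' : AddSubgroup A, T'.FiniteIndex ∧ (T' : Set A) = T

/-- The Whitehead torsions of the self-homotopy-equivalences of `K` which induce the identity of
the fundamental group. -/
def selfTorsions (K : Pres) : Set (Wh K.Pi1) :=
  {w | ∃ f : CellularMap K K (MulEquiv.refl K.Pi1), TorsionIs f w}

/-- `C` is an algebraic 2-complex `ℤ[G]^Y → ℤ[G]^X → ℤ[G]`, exact together with the augmentation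
except at `ℤ[G]^Y`, with Euler characteristic `1 - |X| + |Y| = n`. -/
def IsAlgComplex (G : Type) [Group G] (n : ℤ) (C : Cx (MonoidAlgebra ℤ G)) : Prop :=
  Ex C ∧ 1 - (Fintype.card C.X : ℤ) + Fintype.card C.Y = n

/-- There are a subgroup `T` of finite index of `Wh(G)` and a finite set `S` of algebraic
2-complexes over `ℤ[G]` with Euler characteristic `n` such that, for every algebraic 2-complex `C`
over `ℤ[G]` with Euler characteristic `n`, every element of `T` is the torsion of a
self-equivalence of `C`, and `C` is simple chain homotopy equivalent to a member of `S`. -/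
def UniformFiniteness (G : Type) [Group G] (n : ℤ) : Prop :=
  ∃ T : Set (Wh G), IsFiniteIndexSubgroup (Wh G) T ∧
    ∃ S : Set (Cx (MonoidAlgebra ℤ G)), S.Finite ∧ (∀ L ∈ S, IsAlgComplex G n L) ∧
      ∀ C : Cx (MonoidAlgebra ℤ G), IsAlgComplex G n C →
        (∀ τ ∈ T, HasTor C C τ) ∧ ∃ L ∈ S, HasTor C L 0

/-- Let `G` be a finite group and `n` an integer. The 2-complexes with fundamental group `G` and
Euler characteristic `n` form finitely many simple-homotopy types. For every 2-complex `K` with
fundamental group isomorphic to `G`, the Whitehead torsions of the self-homotopy-equivalences of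
`K` which induce the identity of the fundamental group form a subgroup of finite index of
`Wh(π₁(K))`. There is one subgroup of finite index of `Wh(G)` consisting of torsions of
self-equivalences of every algebraic 2-complex over `ℤ[G]` with Euler characteristic `n`, and
these algebraic 2-complexes form finitely many simple chain homotopy types. -/
theorem result (G : Type) [Group G] [Finite G] (n : ℤ) :
    FinitelyManySimpleTypes G n ∧
    (∀ K : Pres, Nonempty (K.Pi1 ≃* G) → IsFiniteIndexSubgroup (Wh K.Pi1) (selfTorsions K)) ∧
    UniformFiniteness G n := by
  refine ⟨H842.main G n, ?_, ?_⟩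
  · rintro K ⟨e⟩
    have : Finite K.Pi1 := Finite.of_equiv G e.symm.toEquiv
    obtain ⟨T, hT, h⟩ := finiteIndex K
    exact ⟨T, hT, Set.ext h⟩
  · obtain ⟨T, hT, hT'⟩ := core G n
    obtain ⟨S, hS, hSE, hS'⟩ := simpleTypes G n
    exact ⟨T, ⟨T, hT, rfl⟩, S, hS, hSE, fun C hC => ⟨fun τ hτ => hT' C hC.1 hC.2 τ hτ,
      hS' C hC.1 hC.2⟩⟩

end Pool.Agent.Results.MP_b73599_gt.FiniteIndexTorsions
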